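import Pool.Agent.helper91.SI.Spec3

set_option autoImplicit false

namespace Pool.Agent.helper91.SI

open Pool.Agent.helper20.IG (IsIndepDom IsISet iGraph)

theorem NB1_back {V : Type} [DecidableEq V] (A : Finset V) (a b : V) (ha : a ∈ A) (hb : b ∉ A) :
    insert a ((insert b (A.erase a)).erase b) = A := by
  rw [Finset.erase_insert (fun h => hb (Finset.mem_of_mem_erase h)), Finset.insert_erase ha]

theorem NB1 (hSAM : SAM_stmt) : NB1_stmt := by
  intro V _ G S s v hT hW t h
  obtain ⟨hI, hinj, hst⟩ := hW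
  obtain ⟨h1, h2, h3, h4⟩ := hst t
  obtain ⟨g1, g2, g3, g4⟩ := hst (t + 1)
  have hback : insert (s t) ((S (t + 1)).erase (v t)) = S t := by
    rw [h4]
    exact NB1_back (S t) (s t) (v t) h1 h2
  have hne : s t ≠ v t := h3.ne
  have hs1 : Slide G (S (t + 1)) (v t) (s t) := by
    refine ⟨hI (t + 1), ?_, ?_, h3.symm, ?_⟩
    · rw [h4]
      exact Finset.mem_insert_self _ _
    · rw [h4]
      intro hm
      rcases Finset.mem_insert.1 hm with hm | hm
      · exact hne hm
      · exact (Finset.mem_erase.1 hm).1 rfl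
    · rw [hback]
      exact hI t
  have hs2 : Slide G (S (t + 1)) (v t) (v (t + 1)) := by
    rw [h] at g1 g3 g4
    refine ⟨hI (t + 1), g1, g2, g3, ?_⟩
    rw [← g4]
    exact hI (t + 1 + 1)
  have he : s t = v (t + 1) := hSAM V G (S (t + 1)) (v t) (s t) (v (t + 1)) hT hs1 hs2
  have hS : S (t + 1 + 1) = S t := by
    rw [g4, h, ← he]
    exact hback
  have h7 : t + 1 + 1 = t := hinj hS
  exact (by decide : ∀ u : ZMod 7, u + 1 + 1 ≠ u) t h7

end Pool.Agent.helper91.SI
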